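import Pool.Agent.H92.EHD.TP

/-!
The family of closed cones away from the totally invariant sets which do not contain the
hyperplane is stable by preimages.
-/

namespace Pool.Agent.H14.EHD

open MeasureTheory Pool.Agent.H92.EQ Pool.Agent.H92.EHD

theorem ev_cont {N : ℕ} (F : Fin N → MvPolynomial (Fin N) ℂ) : Continuous (ev F) := by
  unfold ev
  exact continuous_pi fun i => MvPolynomial.continuous_eval _

/-- EAW: the family is stable by preimages. -/
theorem pf_EAW (hD : T_D11) : T_EAW := by
  intro k d F hd hF K hK
  have hs := (hD (k + 1) d d F F (by omega) (by omega) hF.isH hF.isH).2.1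
  have h0 : ev F 0 = 0 := by
    have := hs 0 0
    simpa [zero_pow (by omega : d ≠ 0)] using this
  refine ⟨?_, ?_, ?_⟩
  · have : ev F ⁻¹' K ∪ {0} = ev F ⁻¹' (K ∪ {0}) := by
      ext z
      simp only [Set.mem_union, Set.mem_preimage, Set.mem_singleton_iff]
      constructor
      · rintro (hz | hz)
        · exact Or.inl hz
        · right
          rw [hz, h0]
      · rintro (hz | hz)
        · exact Or.inl hz
        · exact Or.inr (hF.isH.nd z hz)
    rw [this]
    exact hK.1.preimage (ev_cont F)
  · intro z hz l hl
    simp only [Set.mem_preimage] at hz ⊢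
    rw [hs]
    exact hK.2.1 _ hz _ (pow_ne_zero _ hl)
  · intro A hA hne hinv z hz hz0 hall
    have hz1 : ev F z ≠ 0 := fun hh => hz0 (hF.isH.nd z hh)
    exact hK.2.2 A hA hne hinv (ev F z) hz hz1 ((hinv z hz0).2 hall)

end Pool.Agent.H14.EHD
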