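import Pool.Agent.H92.EHD.TK
import Pool.Agent.H52.EQ.KB

/-!
The lower Jacobian.
-/

set_option autoImplicit false

namespace Pool.Agent.H14.EHD

open MeasureTheory Pool.Agent.H92.EQ Pool.Agent.H92.EHD

variable {k : ℕ}

/-- the substitution `X 0 := 0` -/
noncomputable def g0 (k : ℕ) : Fin (k + 1) → MvPolynomial (Fin k) ℂ :=
  Fin.cons 0 fun j => MvPolynomial.X j

/-- the restriction to the hyperplane -/
noncomputable def rs (P : MvPolynomial (Fin (k + 1)) ℂ) : MvPolynomial (Fin k) ℂ :=
  MvPolynomial.aeval (g0 k) P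

theorem g0_zero : g0 k 0 = 0 := rfl

theorem g0_succ (j : Fin k) : g0 k j.succ = MvPolynomial.X j := by
  unfold g0
  rw [Fin.cons_succ]

theorem eval_rs (z : Fin k → ℂ) (P : MvPolynomial (Fin (k + 1)) ℂ) :
    MvPolynomial.eval z (rs P) = MvPolynomial.eval (Fin.cons 0 z : Fin (k + 1) → ℂ) P := by
  unfold rs
  induction P using MvPolynomial.induction_on with
  | C a => simp
  | add p q hp hq => rw [map_add, map_add, map_add, hp, hq]
  | mul_X p i hp =>
    rw [map_mul, map_mul, map_mul, hp, MvPolynomial.aeval_X, MvPolynomial.eval_X]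
    congr 1
    refine Fin.cases ?_ (fun j => ?_) i
    · rw [g0_zero, map_zero, Fin.cons_zero]
    · rw [g0_succ, MvPolynomial.eval_X, Fin.cons_succ]

theorem pderiv_rs (a : Fin k) (P : MvPolynomial (Fin (k + 1)) ℂ) :
    MvPolynomial.pderiv a (rs P) = rs (MvPolynomial.pderiv a.succ P) := by
  unfold rs
  induction P using MvPolynomial.induction_on with
  | C c =>
    rw [MvPolynomial.pderiv_C, map_zero, MvPolynomial.aeval_C]
    exact MvPolynomial.pderiv_C
  | add p q hp hq => rw [map_add, map_add, hp, hq, map_add, map_add]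
  | mul_X p i hp =>
    rw [map_mul, MvPolynomial.aeval_X, MvPolynomial.pderiv_mul, hp, MvPolynomial.pderiv_mul,
      map_add, map_mul, map_mul, MvPolynomial.aeval_X]
    congr 2
    refine Fin.cases ?_ (fun j => ?_) i
    · rw [g0_zero, map_zero, MvPolynomial.pderiv_X_of_ne (Fin.succ_ne_zero a).symm, map_zero]
    · rw [g0_succ]
      by_cases h : j = a
      · rw [h, MvPolynomial.pderiv_X_self, MvPolynomial.pderiv_X_self, map_one]
      · rw [MvPolynomial.pderiv_X_of_ne h,
          MvPolynomial.pderiv_X_of_ne (fun hh => h (Fin.succ_injective k hh)), map_zero]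

theorem rs_hom {P : MvPolynomial (Fin (k + 1)) ℂ} {m : ℕ} (hP : P.IsHomogeneous m) :
    (rs P).IsHomogeneous m := by
  have h := hP.aeval (g0 k) (n := 1) (fun i => by
    refine Fin.cases ?_ (fun j => ?_) i
    · rw [g0_zero]
      exact MvPolynomial.isHomogeneous_zero _ _ _
    · rw [g0_succ]
      exact MvPolynomial.isHomogeneous_X _ _)
  rw [one_mul] at h
  exact h

theorem rs_lowP (F : Fin (k + 1) → MvPolynomial (Fin (k + 1)) ℂ) :
    rs (lowP F) = detP fun i : Fin k => rs (F i.succ) := by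
  unfold lowP detP
  conv_lhs => unfold rs
  rw [AlgHom.map_det]
  congr 1
  ext1 i a
  rw [AlgHom.mapMatrix_apply, Matrix.map_apply, Matrix.of_apply, Matrix.of_apply, pderiv_rs]
  rfl

/-- EKB: the lower Jacobian. -/
theorem pf_EKB (hKB : T_KB) (hL5 : T_L5) (hL6 : T_L6) (hD : T_D12) : T_EKB := by
  intro k d F hk hd hF
  have hG : IsH d fun i : Fin k => rs (F i.succ) := by
    refine ⟨fun i => rs_hom (hF.isH.hom _), ?_⟩
    intro z hz
    have h1 : ev F (Fin.cons 0 z : Fin (k + 1) → ℂ) = 0 := by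
      funext i
      refine Fin.cases ?_ (fun j => ?_) i
      · unfold ev
        rw [hF.zero, map_pow, MvPolynomial.eval_X, Fin.cons_zero, zero_pow (by omega)]
        rfl
      · have h2 := congrFun hz j
        unfold ev at h2 ⊢
        rw [eval_rs] at h2
        exact h2
    have h3 := hF.isH.nd _ h1
    funext j
    have h4 := congrFun h3 j.succ
    rw [Fin.cons_succ] at h4
    exact h4
  obtain ⟨hne, -⟩ := hKB k d _ hk hd hG
  have hrs : rs (lowP F) ≠ 0 := by
    rw [rs_lowP]
    exact hne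
  have hlow0 : lowP F ≠ 0 := by
    intro h
    apply hrs
    rw [h]
    unfold rs
    exact map_zero _
  have hhom : (lowP F).IsHomogeneous (k * (d - 1)) :=
    Pool.Agent.H52.EQ.det_hom _ fun i a => (hF.isH.hom i.succ).pderiv
  have hM : 1 ≤ k * (d - 1) := Nat.mul_pos hk (by omega)
  have heval : ∀ z, MvPolynomial.eval z (lowP F) = (low (jac F z)).det := by
    intro z
    unfold lowP
    rw [RingHom.map_det]
    rfl
  refine ⟨hlow0, hhom, hM, ?_, heval, ?_, ?_, ?_⟩
  · rintro ⟨Q, hQ⟩
    apply hrs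
    rw [hQ]
    unfold rs
    rw [map_mul, MvPolynomial.aeval_X, g0_zero, zero_mul]
  · obtain ⟨B, hB0, hB⟩ := (hL6 (k + 1)).1 (nv (lowP F) (k * (d - 1))) (by
        unfold nv
        refine ContinuousOn.div ?_ (Pool.Agent.H52.EQ.continuous_nrm'.pow _).continuousOn ?_
        · exact (MvPolynomial.continuous_eval (lowP F)).norm.continuousOn
        · intro z hz
          exact pow_ne_zero _ (Pool.Agent.H52.EQ.nrm_pos' hz).ne') (by
        intro r z hr hz
        unfold nv
        rw [Pool.Agent.H52.EQ.eval_smul' hhom, Pool.Agent.H52.EQ.nrm_smul' hr, norm_mul, norm_pow,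
          Complex.norm_real, Real.norm_eq_abs, abs_of_pos hr, mul_pow]
        exact mul_div_mul_left _ _ (pow_ne_zero _ hr.ne'))
    refine ⟨max B 1, le_max_right _ _, fun z hz => ?_⟩
    exact ((le_abs_self _).trans (hB z hz)).trans (le_max_left _ _)
  · intro ε hε
    refine ⟨hL5 (k + 1) (k * (d - 1)) (lowP F) ε hM hhom hε, ?_⟩
    intro z hz
    have hs := Pool.Agent.H52.EQ.nsq_pos' hz
    set M := k * (d - 1) with hMdef
    have hMR : (M : ℝ) ≠ 0 := by
      have : (0 : ℝ) < M := by exact_mod_cast hM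
      exact this.ne'
    have hnv : nv (lowP F) M z ^ 2 = ‖MvPolynomial.eval z (lowP F)‖ ^ 2 / nsq z ^ M := by
      unfold nv
      rw [div_pow, ← pow_mul, mul_comm M 2, pow_mul, Pool.Agent.H52.EQ.nrm_sq']
    have h1 : nv (lowP F) M z ^ 2 + ε ^ 2 =
        (‖MvPolynomial.eval z (lowP F)‖ ^ 2 + ε ^ 2 * nsq z ^ M) / nsq z ^ M := by
      rw [hnv]
      field_simp
    rw [h1, Real.log_div (by positivity) (by positivity), Real.log_pow]
    unfold we ell
    field_simp
  · intro n
    refine ⟨(hD (k + 1) d F (by omega) hF.isH 0 n).1, ?_⟩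
    induction n with
    | zero => simp [iter]
    | succ n ih =>
      change MvPolynomial.bind₁ (iter F n) (F 0) = _
      rw [hF.zero, map_pow, MvPolynomial.bind₁_X_right, ih, ← pow_mul, pow_succ]

end Pool.Agent.H14.EHD
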